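import Pool.Agent.TH957.WM.Prime

/-!
# A prime in a given reduced residue class, in a short range, not dividing a given number
-/

open Filter Topology ArithmeticFunction

namespace Pool.Agent.TH957.ZM

noncomputable section

set_option autoImplicit false

open Pool.Agent.TH957.WM in
theorem exists_prime_cls (κ : ℕ) (hκ : 1 ≤ κ) (a : ZMod κ) (ha : IsUnit a) (lam ρ : ℝ) (hρ : 0 ≤ ρ)
    (hl : 1 + ρ * κ.totient < lam) :
    ∀ᶠ X : ℕ in atTop, ∀ Q : ℕ, 0 < Q → Real.log Q ≤ ρ * X →
      ∃ p : ℕ, p.Prime ∧ (p : ZMod κ) = a ∧ X < p ∧ (p : ℝ) ≤ lam * X ∧ ¬ p ∣ Q := by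
  classical
  haveI : NeZero κ := ⟨by omega⟩
  have hφ : (0 : ℝ) < (κ.totient : ℝ) := by exact_mod_cast Nat.totient_pos.2 hκ
  have hlam : 1 < lam := by nlinarith [mul_nonneg hρ hφ.le]
  have hlam0 : 0 < lam := by linarith
  have hc1 : Tendsto (fun X : ℕ => (X : ℝ)) atTop atTop := tendsto_natCast_atTop_atTop
  have hc2 : Tendsto (fun X : ℕ => lam * (X : ℝ)) atTop atTop := hc1.const_mul_atTop hlam0
  have hp := Pool.Agent.Helper923.PNT.pnt_residueClass (q := κ) (a := a) ha
  have g1 := (hp.comp hc2).const_mul lam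
  have g2 := hp.comp hc1
  have g3 := ((Pool.Agent.Helper923.PNT.psi_div_tendsto.sub Pool.Agent.Helper923.PNT.theta_div_tendsto).comp hc2).const_mul lam
  have g4 := (g1.sub g3).sub g2
  have g5 : ρ < lam * ((κ.totient : ℝ)⁻¹) - lam * (1 - 1) - (κ.totient : ℝ)⁻¹ := by
    have : lam * ((κ.totient : ℝ)⁻¹) - lam * (1 - 1) - (κ.totient : ℝ)⁻¹ = (lam - 1) / κ.totient := by
      field_simp
      ring
    rw [this, lt_div_iff₀ hφ]
    linarith
  have g6 := g4.eventually_const_lt g5
  filter_upwards [g6, eventually_ge_atTop 1] with X hX hX1 Q hQ hlog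
  simp only [Function.comp, Nat.floor_natCast] at hX
  by_contra hcon
  push Not at hcon
  have hXr : (1 : ℝ) ≤ X := by exact_mod_cast hX1
  have hX0 : (0 : ℝ) < X := by linarith
  set Y : ℕ := ⌊lam * (X : ℝ)⌋₊ with hY
  have hXY : X ≤ Y := by
    rw [hY, Nat.le_floor_iff (by positivity)]
    nlinarith
  have e1 : Chebyshev.psi (Y : ℝ) = Chebyshev.psi (lam * X) := by
    unfold Chebyshev.psi
    rw [Nat.floor_natCast, hY]
  have e2 : Chebyshev.theta (Y : ℝ) = Chebyshev.theta (lam * X) := by
    unfold Chebyshev.theta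
    rw [Nat.floor_natCast, hY]
  have a4 := cls_lower κ a Y
  rw [e1, e2] at a4
  have a5 : ∑ p ∈ clsP κ a Y, Real.log p ≤ Real.log Q + ∑ k ∈ Finset.Icc 1 X, vonMangoldt.residueClass a k := by
    rw [← Finset.sum_filter_add_sum_filter_not _ (fun p => X < p)]
    apply add_le_add
    · apply sum_log_le _ _ Q hQ
      · intro p hp
        rw [Finset.mem_filter, mem_clsP] at hp
        refine hcon p hp.1.2.1 hp.1.2.2 hp.2 ?_
        have := hp.1.1.2
        rw [hY, Nat.le_floor_iff (by positivity)] at this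
        exact this
      · intro p hp
        rw [Finset.mem_filter, mem_clsP] at hp
        exact hp.1.2.1
    · calc _ ≤ ∑ p ∈ (clsP κ a Y).filter (fun p => ¬ X < p), vonMangoldt.residueClass a p := by
            apply Finset.sum_le_sum
            intro p hp
            rw [Finset.mem_filter, mem_clsP] at hp
            unfold vonMangoldt.residueClass
            rw [Set.indicator_of_mem]
            · exact (vonMangoldt_apply_prime hp.1.2.1).ge
            · exact hp.1.2.2
        _ ≤ _ := by
            apply Finset.sum_le_sum_of_subset_of_nonneg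
            · intro p hp
              rw [Finset.mem_filter, mem_clsP] at hp
              rw [Finset.mem_Icc]
              exact ⟨hp.1.1.1, by omega⟩
            · intro p _ _
              exact vonMangoldt.residueClass_nonneg _ _
  set S1 := ∑ k ∈ Finset.Icc 1 Y, vonMangoldt.residueClass a k with hS1
  set S2 := ∑ k ∈ Finset.Icc 1 X, vonMangoldt.residueClass a k with hS2
  have e3 : lam * (S1 / (lam * X)) - lam * (Chebyshev.psi (lam * X) / (lam * X) - Chebyshev.theta (lam * X) / (lam * X)) -
      S2 / X = (S1 - (Chebyshev.psi (lam * X) - Chebyshev.theta (lam * X)) - S2) / X := by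
    field_simp
  rw [e3, lt_div_iff₀ hX0] at hX
  linarith

end

end Pool.Agent.TH957.ZM
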