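import Pool.Agent.H343Z.Z
import Pool.Agent.TH957.ZM.Arch
import Pool.Agent.TH957.ZM.NonV
import Pool.Agent.TH957.ZM.Prime

/-!
# A simultaneous measure of irrationality for `ζ(7), ζ(9), ζ(11), ζ(13)`
-/

open Polynomial Pool.Agent.H337R2 Pool.Agent.H343Z Filter Topology

namespace Pool.Agent.TH957.ZM

noncomputable section

set_option autoImplicit false

/-- no rational point with denominator at most `exp (2 n/55)` prime to `n` is very close to the zeta values -/
theorem key : ∃ n0 : ℕ, ∀ n : ℕ, n0 ≤ n → n.Prime → n % 24 = 1 → ∀ (q : ℕ) (u : ℕ → ℚ), UInt q u → ¬ n ∣ q →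
    55 / 2 * Real.log q ≤ n → ∃ l, (l = 3 ∨ l = 5 ∨ l = 7 ∨ l = 9) ∧
      Real.exp (-(825 * n)) < |zr (l + 4) - (u l : ℝ)| := by
  obtain ⟨K0, hK0, hE4⟩ := E4_padic
  obtain ⟨p0, hH6⟩ := nonv
  have hF3 : ((LA + LB + LC + LU : ℚ) : ℝ) ≤ 228862 / 100 := by
    have h := (Rat.cast_le (K := ℝ)).2 F3_numeric
    refine h.trans (le_of_eq ?_)
    norm_num
  have hnum := Z_num hF3
  -- the eventual inequalities
  have hε : (0 : ℝ) < 1 / 100 := by norm_num
  have ev1 := arch_pert (1 / 100) hε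
  have ev2 := ev_of_tendsto F2_A (1 / 100) hε
  have ev3 := ev_of_tendsto F2_B (1 / 100) hε
  have ev4 := ev_of_tendsto F2_C (1 / 100) hε
  have ev5 := ev_of_tendsto F2_U (1 / 100) hε
  have ev6 := F4_small (1 / 100) hε
  have ev7 := F5_fact
  have ev8 := F6_superfac (1 / 100) hε
  have ev9 : ∀ᶠ n : ℕ in atTop, K0 * (Real.log 4 * 13) ≤ 1 / 100 * n := by
    have := (tendsto_natCast_atTop_atTop (R := ℝ)).const_mul_atTop hε
    exact this.eventually_ge_atTop _
  obtain ⟨N1, hN1⟩ := eventually_atTop.1 ev1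
  obtain ⟨N2, hN2⟩ := eventually_atTop.1 (ev2.and (ev3.and (ev4.and (ev5.and (ev6.and (ev7.and (ev8.and ev9)))))))
  refine ⟨24 * N1 + N2 + p0 + 7200, fun n hngt hnp hnmod q u hu hnq hlogq => ?_⟩
  by_contra hcon
  push Not at hcon
  have hq0 : 0 < q := hu.1
  obtain ⟨N, hN⟩ : ∃ N, n = 24 * N + 1 := ⟨n / 24, by omega⟩
  have hDne : DET n u (25 * (n - 1)) ≠ 0 := hH6 n (by omega) hnp u q hu hnq
  have g1 := hN1 N (by omega) n hN u hcon hDne
  obtain ⟨g2, g3, g4, g5, g6, g7, g8, g9⟩ := hN2 n (by omega)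
  have hn7 : 7 ≤ n := by omega
  have hn0 : (0 : ℝ) < n := by exact_mod_cast (by omega : 0 < n)
  set D := DET n u (25 * (n - 1)) with hD
  set z : ℚ := (q : ℚ) ^ (25 * (n - 1)) * D with hz
  have hqr : (0 : ℝ) < q := by exact_mod_cast hq0
  have hz0 : z ≠ 0 := mul_ne_zero (by positivity) hDne
  set S := (Finset.range (13 * n)).filter Nat.Prime with hS
  have hpf := Pool.Agent.H336R2.HD.A5_prod_formula z hz0 S (fun p hp => (Finset.mem_filter.1 hp).2) (fun p => Bf n p K0)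
    (fun p hp => by
      rw [hS, Finset.mem_filter, Finset.mem_range] at hp
      exact norm_le_Bf n p K0 hn7 hp.2 q u hu (fun h1 h2 => hE4 n hn7 p hp.2 h1 h2 q u hu) (by omega) hp.1)
    (fun p hp hpS => by
      rw [hS, Finset.mem_filter, Finset.mem_range] at hpS
      have h1 : 13 * n ≤ p := by
        by_contra h; exact hpS ⟨by omega, hp⟩
      have h2 := hE4 n hn7 p hp (by omega) (by nlinarith) q u hu
      rw [if_neg (by omega)] at h2
      have h3 : padicNorm p ((q : ℚ) ^ (25 * (n - 1)) * DET n u (25 * (n - 1))) ≤ 1 := by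
        exact_mod_cast h2
      exact h3)
  have hprodpos : 0 < ∏ p ∈ S, Bf n p K0 :=
    Finset.prod_pos fun p hp => Bf_pos n p K0 (Finset.mem_filter.1 hp).2
  have hzabs : 0 < |(z : ℝ)| := abs_pos.2 (by exact_mod_cast hz0)
  have hlog := Real.log_nonneg hpf
  rw [Real.log_mul hzabs.ne' hprodpos.ne', Real.log_prod (fun p hp => (Bf_pos n p K0 (Finset.mem_filter.1 hp).2).ne')] at hlog
  have hzlog : Real.log |(z : ℝ)| = ((25 * (n - 1) : ℕ) : ℝ) * Real.log q + Real.log |((D : ℚ) : ℝ)| := by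
    rw [hz, Rat.cast_mul, Rat.cast_pow, Rat.cast_natCast]
    rw [abs_mul, Real.log_mul (by positivity) (abs_pos.2 (by exact_mod_cast hDne)).ne', abs_of_pos (by positivity), Real.log_pow]
  have hlq : 0 ≤ Real.log q := Real.log_nonneg (by exact_mod_cast hq0)
  have hmq : ((25 * (n - 1) : ℕ) : ℝ) * Real.log q ≤ 25 * n * Real.log q := by
    apply mul_le_mul_of_nonneg_right _ hlq
    have : 25 * (n - 1) ≤ 25 * n := by omega
    exact_mod_cast this
  -- split of the sum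
  rw [← Finset.sum_filter_add_sum_filter_not S (fun p => 20 * p ≤ n)] at hlog
  have hsmall : ∑ p ∈ S.filter (fun p => 20 * p ≤ n), Real.log (Bf n p K0) ≤
      25 * (n : ℝ) * (∑ p ∈ (Finset.range (n + 1)).filter (fun p : ℕ => p.Prime ∧ p ^ 2 ≤ 50 * n),
        100 * Real.log (50 * n + 1) +
      ∑ p ∈ (Finset.range (n + 1)).filter (fun p : ℕ => p.Prime ∧ 20 * p ≤ n), 14 * Real.log p) +
      ∑ p ∈ (Finset.range (n + 1)).filter (fun p : ℕ => p.Prime ∧ 20 * p ≤ n), ∑ i ∈ Finset.range (25 * (n - 1)),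
      Real.log ((padicNorm p (((2 * i - 1).factorial : ℕ) : ℚ) ^ 2 : ℚ) : ℝ) := by
    have e1 : S.filter (fun p => 20 * p ≤ n) = (Finset.range (n + 1)).filter (fun p : ℕ => p.Prime ∧ 20 * p ≤ n) := by
      ext p
      rw [hS]
      simp only [Finset.mem_filter, Finset.mem_range]
      constructor
      · rintro ⟨⟨h1, h2⟩, h3⟩; exact ⟨by omega, h2, h3⟩
      · rintro ⟨h1, h2, h3⟩; exact ⟨⟨by omega, h2⟩, h3⟩
    rw [e1]
    calc _ ≤ ∑ p ∈ (Finset.range (n + 1)).filter (fun p : ℕ => p.Prime ∧ 20 * p ≤ n),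
          (25 * (n : ℝ) * ((if p ^ 2 ≤ 50 * n then 100 * Real.log (50 * n + 1) else 0) + 14 * Real.log p) +
          ∑ i ∈ Finset.range (25 * (n - 1)), Real.log ((padicNorm p (((2 * i - 1).factorial : ℕ) : ℚ) ^ 2 : ℚ) : ℝ)) := by
          apply Finset.sum_le_sum
          intro p hp
          rw [Finset.mem_filter] at hp
          exact log_Bf_small n p K0 hn7 hp.2.1 hp.2.2
      _ ≤ _ := by
          rw [Finset.sum_add_distrib, ← Finset.mul_sum, Finset.sum_add_distrib]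
          apply add_le_add_left
          apply mul_le_mul_of_nonneg_left _ (by positivity)
          apply add_le_add_left
          rw [← Finset.sum_filter]
          apply Finset.sum_le_sum_of_subset_of_nonneg
          · intro p hp
            simp only [Finset.mem_filter, Finset.mem_range] at hp ⊢
            exact ⟨hp.1.1, hp.1.2.1, hp.2⟩
          · intro p _ _
            have : 0 ≤ Real.log (50 * (n : ℝ) + 1) := Real.log_nonneg (by linarith)
            positivity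
  have hlarge : ∑ p ∈ S.filter (fun p => ¬ 20 * p ≤ n), Real.log (Bf n p K0) ≤
      ∑ p ∈ PS (1 / 20) 2 n, EA n p * Real.log p + ∑ p ∈ PS 2 (17 / 2) n, EB n p * Real.log p +
      ∑ p ∈ PS (17 / 2) 13 n, EC n p * Real.log p + K0 * (Real.log 4 * (13 * n)) := by
    refine le_trans (le_of_eq ?_) (EW_split n hn7 K0 hK0)
    apply Finset.sum_congr rfl
    intro p hp
    rw [hS, Finset.mem_filter, Finset.mem_filter] at hp
    exact log_Bf_large n p K0 hp.1.2 hp.2
  have hfin : 25 * (n : ℝ) * Real.log q + K0 * (Real.log 4 * (13 * n)) ≤ 92 / 100 * (n : ℝ) ^ 2 := by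
    have h1 := mul_le_mul_of_nonneg_right g9 hn0.le
    have h2 := mul_le_mul_of_nonneg_right hlogq hn0.le
    nlinarith
  have hn2 : (0 : ℝ) < (n : ℝ) ^ 2 := by positivity
  push_cast at hnum
  have htot : 0 ≤ (JJ - (1250 * Real.log 50 - 1875) + 35 / 2 +
      ((LA : ℝ) + LB + LC + LU) + 99 / 100) * (n : ℝ) ^ 2 := by
    linarith
  have hneg : (JJ - (1250 * Real.log 50 - 1875) + 35 / 2 +
      ((LA : ℝ) + LB + LC + LU) + 99 / 100) * (n : ℝ) ^ 2 < 0 := by
    apply mul_neg_of_neg_of_pos _ hn2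
    linarith
  linarith

/-- the measure for large denominators -/
theorem meas_large : ∃ q0 : ℕ, ∀ q : ℕ, q0 ≤ q → ∀ P : ℕ → ℤ, ∃ j, (j = 7 ∨ j = 9 ∨ j = 11 ∨ j = 13) ∧
    1 / (q : ℝ) ^ 29400 ≤ |zr j - (P j : ℝ) / q| := by
  obtain ⟨n0, hkey⟩ := key
  have hφ : ((Nat.totient 24 : ℕ) : ℝ) = 8 := by
    have : Nat.totient 24 = 8 := by decide
    rw [this]; norm_num
  have hpr := exists_prime_cls 24 (by norm_num) 1 isUnit_one (1292 / 1000) (2 / 55) (by norm_num) (by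
    rw [hφ]; norm_num)
  obtain ⟨X0, hX0⟩ := eventually_atTop.1 hpr
  have ev : ∀ᶠ q : ℕ in atTop, (X0 + n0 + 20 : ℝ) ≤ Real.log q :=
    (Real.tendsto_log_atTop.comp (tendsto_natCast_atTop_atTop (R := ℝ))).eventually_ge_atTop _
  obtain ⟨q1, hq1⟩ := eventually_atTop.1 ev
  refine ⟨q1 + 1, fun q hq P => ?_⟩
  have hq0 : 0 < q := by omega
  have hqr : (0 : ℝ) < q := by exact_mod_cast hq0
  have hlq := hq1 q (by omega)
  have hX00 : (0 : ℝ) ≤ X0 := by positivity
  have hn00 : (0 : ℝ) ≤ n0 := by positivity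
  set L := Real.log q with hL
  set X : ℕ := ⌈55 / 2 * L⌉₊ with hX
  have hX1 : 55 / 2 * L ≤ X := Nat.le_ceil _
  have hX2 : (X : ℝ) < 55 / 2 * L + 1 := Nat.ceil_lt_add_one (by linarith)
  have hXX : X0 ≤ X := by
    have : (X0 : ℝ) ≤ X := by linarith
    exact_mod_cast this
  have hXn : n0 ≤ X := by
    have : (n0 : ℝ) ≤ X := by linarith
    exact_mod_cast this
  obtain ⟨n, hnp, hn1, hn2, hn3, hn4⟩ := hX0 X hXX q hq0 (by linarith)
  have hnmod : n % 24 = 1 := by
    have h1 : ((n : ℕ) : ZMod 24) = ((1 : ℕ) : ZMod 24) := by rw [hn1, Nat.cast_one]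
    rw [ZMod.natCast_eq_natCast_iff] at h1
    exact h1
  set u : ℕ → ℚ := fun l => (P (l + 4) : ℚ) / q with hu
  have hUI : UInt q u := by
    refine ⟨hq0, fun i => ⟨P (i + 4), ?_⟩⟩
    rw [hu]
    have : (q : ℚ) ≠ 0 := by exact_mod_cast hq0.ne'
    field_simp
  have hnX : (X : ℝ) ≤ n := by exact_mod_cast hn2.le
  obtain ⟨l, hl, hlt⟩ := hkey n (by omega) hnp hnmod q u hUI hn4 (by linarith)
  refine ⟨l + 4, by omega, ?_⟩
  have e1 : ((u l : ℚ) : ℝ) = (P (l + 4) : ℝ) / q := by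
    rw [hu]; push_cast; rfl
  rw [e1] at hlt
  refine le_trans ?_ hlt.le
  have e2 : 1 / (q : ℝ) ^ 29400 = Real.exp (-(29400 * L)) := by
    rw [hL, Real.exp_neg, one_div]
    congr 1
    rw [← Real.exp_log (pow_pos hqr 29400), Real.log_pow]
    norm_num
  rw [e2]
  apply Real.exp_le_exp.2
  linarith

/-- **The simultaneous measure.** -/
theorem main : ∃ c : ℝ, 0 < c ∧ ∀ (P : ℕ → ℤ) (q : ℕ), 0 < q → ∃ j, (j = 7 ∨ j = 9 ∨ j = 11 ∨ j = 13) ∧
    c / (q : ℝ) ^ 29400 ≤ |zr j - (P j : ℝ) / q| := by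
  obtain ⟨q0, hq0⟩ := meas_large
  -- one of the values is irrational
  obtain ⟨j0, hj0, hirr⟩ : ∃ j0, (j0 = 7 ∨ j0 = 9 ∨ j0 = 11 ∨ j0 = 13) ∧ Irrational (zr j0) := by
    rcases Z_main with h | h | h | h
    · exact ⟨7, by omega, h⟩
    · exact ⟨9, by omega, h⟩
    · exact ⟨11, by omega, h⟩
    · exact ⟨13, by omega, h⟩
  -- the distance of `q ζ(j0)` to the nearest integer
  set δ : ℕ → ℝ := fun q => |zr j0 * q - round (zr j0 * q)| with hδ
  have hδ0 : ∀ q : ℕ, 0 < q → 0 < δ q := by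
    intro q hq
    rw [hδ]
    apply abs_pos.2
    intro h
    apply hirr
    have hqr : (q : ℝ) ≠ 0 := by exact_mod_cast hq.ne'
    refine ⟨(round (zr j0 * q) : ℚ) / q, ?_⟩
    push_cast
    rw [div_eq_iff hqr]
    linarith
  obtain ⟨m, hm0, hm⟩ : ∃ m : ℝ, 0 < m ∧ ∀ q : ℕ, 0 < q → q < q0 → m ≤ δ q := by
    clear hq0
    induction q0 with
    | zero => exact ⟨1, one_pos, fun q _ h => absurd h (by omega)⟩
    | succ k ih =>
      obtain ⟨m, hm0, hm⟩ := ih
      by_cases hk : 0 < k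
      · refine ⟨min m (δ k), lt_min hm0 (hδ0 k hk), fun q h1 h2 => ?_⟩
        rcases Nat.lt_succ_iff_lt_or_eq.1 h2 with h | h
        · exact (min_le_left _ _).trans (hm q h1 h)
        · rw [h]; exact min_le_right _ _
      · exact ⟨m, hm0, fun q h1 h2 => absurd h1 (by omega)⟩
  refine ⟨min 1 m, lt_min one_pos hm0, fun P q hq => ?_⟩
  have hqr : (1 : ℝ) ≤ q := by exact_mod_cast hq
  have hq0' : (0 : ℝ) < q := by linarith
  have hpow : 0 < (q : ℝ) ^ 29400 := pow_pos hq0' _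
  by_cases h : q0 ≤ q
  · obtain ⟨j, hj, hle⟩ := hq0 q h P
    refine ⟨j, hj, le_trans ?_ hle⟩
    exact div_le_div_of_nonneg_right (min_le_left _ _) hpow.le
  · refine ⟨j0, hj0, ?_⟩
    have h1 := hm q hq (by omega)
    have h2 : δ q ≤ |zr j0 * q - (P j0 : ℝ)| := by
      rw [hδ]
      exact round_le _ _
    have h3 : |zr j0 - (P j0 : ℝ) / q| = |zr j0 * q - (P j0 : ℝ)| / q := by
      rw [← abs_of_pos hq0', ← abs_div, abs_of_pos hq0']
      congr 1
      field_simp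
    rw [h3]
    have h4 : (q : ℝ) ≤ (q : ℝ) ^ 29400 := le_self_pow₀ hqr (by norm_num)
    calc min 1 m / (q : ℝ) ^ 29400 ≤ m / (q : ℝ) ^ 29400 :=
          div_le_div_of_nonneg_right (min_le_right _ _) hpow.le
      _ ≤ m / q := div_le_div_of_nonneg_left hm0.le hq0' h4
      _ ≤ _ := div_le_div_of_nonneg_right (h1.trans h2) hq0'.le

end

end Pool.Agent.TH957.ZM
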