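import Pool.Agent.TH957.ZM.Rho
import Pool.Agent.H343Z.B1
import Pool.Agent.H343Z.V2
import Pool.Agent.H343Z.G4e

/-!
# The linear forms at arbitrary rational points and the bounds of the entries
-/

open Polynomial Pool.Agent.H337R2 Pool.Agent.H343Z Filter Topology

namespace Pool.Agent.TH957.ZM

noncomputable section

set_option autoImplicit false

/-- the terms of the series -/
def trm (n : ℕ) (Q : ℚ[X]) (t : ℕ) : ℝ :=
  ((PowerSeries.coeff 4 (RS (sN n) (muN n) (PPn n * EE n Q) (t : ℚ)) : ℚ) : ℝ)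

lemma rho_zero {n : ℕ} (hn : 2 ≤ n) (Q : ℚ[X]) (hQ : Q.natDegree ≤ 50 * n - 52) (i : ℕ) (hi1 : 1 ≤ i)
    (hi2 : i ≤ 10) (hi : ¬ (i = 3 ∨ i = 5 ∨ i = 7 ∨ i = 9)) : rho n Q i = 0 := by
  have hd := B1_deg hn Q hQ
  by_cases hodd : Odd i
  · have : i = 1 := by
      obtain ⟨j, hj⟩ := hodd
      omega
    subst this
    exact residue_sum (sN n) (muN n) (PPn n * EE n Q) hd
  · have hodd' := Nat.not_odd_iff_even.1 hodd
    exact even_vanish (sN n) (muN n) (PPn n * EE n Q) (18 * n)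
      (fun k hk => ss_reflect 18 2 n hk) (fun k hk => mu_reflect 18 n ds10 (ss_reflect 18 2 n hk).1)
      (B1_P_comp n Q) (even_sum_mu 18 2 n ds10 (by omega) (by decide) (by decide) (by decide)) hodd' hi1

theorem hasSum_gen {n : ℕ} (hn : 2 ≤ n) (u : ℕ → ℚ) (Q : ℚ[X]) (hQ : Q.natDegree ≤ 50 * n - 52) :
    ∃ F : ℝ, HasSum (trm n Q) F ∧ F - ((NL n u Q : ℚ) : ℝ) =
      ∑ i ∈ Finset.Icc 1 10, ((Nat.choose (i + 3) 4 : ℕ) : ℝ) * ((rho n Q i : ℚ) : ℝ) * (zr (i + 4) - (u i : ℝ)) := by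
  have hd := B1_deg hn Q hQ
  have hdeg' : (PPn n * EE n Q).degree < (QQ (sN n) (muN n)).degree := by
    rw [Polynomial.degree_eq_natDegree (QQ_monic _ _).ne_zero]
    exact lt_of_le_of_lt Polynomial.degree_le_natDegree (by exact_mod_cast (by omega))
  have h1 := linear_form' (sN n) (muN n) (PPn n * EE n Q) hdeg' 4 (2 * n) 10 (by omega)
    (fun k hk => by rw [sN, ss, Finset.mem_Icc] at hk; omega)
    (fun k _ => mu_le_length 18 n ds10 k)
    (fun m hm => Dvd.dvd.mul_right (PP_dvd 5 18 2 n ds10 hm) _)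
  refine ⟨_, h1, ?_⟩
  rw [NL_apply]
  unfold xf rho
  push_cast
  rw [← Finset.sum_sub_distrib]
  apply Finset.sum_congr rfl
  intro i hi
  rw [Finset.mem_Icc] at hi
  have hch : ((Nat.choose (i + 3) 4 : ℕ) : ℝ) = ((Nat.choose (i - 1 + 4) (i - 1) : ℕ) : ℝ) := by
    have : Nat.choose (i - 1 + 4) (i - 1) = Nat.choose (i + 3) 4 := by
      rw [show i - 1 + 4 = i + 3 by omega, ← Nat.choose_symm_of_eq_add (show i + 3 = (i - 1) + 4 by omega)]
    rw [this]
  rw [hch]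
  ring

/-- the archimedean bound of the series by the values on the slanted contour -/
theorem V2_gen : ∃ C : ℝ, 0 < C ∧ ∀ n : ℕ, 2 ≤ n → ∀ Q : ℚ[X], Q.natDegree ≤ 50 * n - 52 → ∀ U : ℕ,
    (∀ t < U, (X - Polynomial.C (xq n t)) ^ 5 ∣ Q) → ∀ B : ℝ,
    (∀ r : ℝ, 0 ≤ r → ‖Rv n (zv U r)‖ * ‖xv n (zv U r)‖ ^ 55 * ‖aeval (xv n (zv U r)) Q‖ *
      Real.exp (-(2 * Real.pi * r)) ≤ B * (1 + r ^ 2)⁻¹) →
    ∀ F : ℝ, HasSum (trm n Q) F → |F| ≤ C * B := by
  obtain ⟨C, hC, hCK⟩ := V1_shift (b := 5) (by norm_num)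
  refine ⟨C, hC, fun n hn Q hQ U hU B hB F hF => ?_⟩
  have hdeg := V2_deg hn Q hQ
  refine hCK (sN n) (muN n) (PPn n * EE n Q) hdeg ?_ U F hF ?_ B ?_
  · intro k hk
    have hk' : k ∈ Finset.Icc (2 * n + 1) (18 * n - 2 * n - 1) := hk
    rw [Finset.mem_Icc] at hk'
    omega
  · intro t ht
    exact V2_vanish (hU t ht)
  · intro r hr
    refine le_trans (le_of_eq ?_) (hB r hr)
    rw [map_mul]
    have e1 : aeval (zv U r) (EE n Q) = (xv n (zv U r)) ^ 55 * aeval (xv n (zv U r)) Q := by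
      unfold EE
      have e2 : aeval (zv U r) (xp n) = xv n (zv U r) := by
        unfold xp xv
        simp
      rw [Polynomial.aeval_comp, e2, map_mul, map_pow, aeval_X]
    rw [e1]
    unfold Rv
    rw [norm_div, norm_div, norm_mul, norm_mul, norm_pow]
    ring

/-- the exponent of the entries -/
def EE2 (N i j : ℕ) : ℝ :=
  (2 * (Lam * N) + 8 * (i + j) * Real.log N + ((EX N i : ℝ) + EX N j - 76000 * N) * Real.log 2) / 4

open G4eAux in
/-- bounds of the entries (sums of the series) -/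
theorem entry_of (h10 : HG10) (h11 : HG11) (h12 : HG12) (h2 : HG2) {T : ℝ}
    (hT : T = Real.exp (((38000 : ℕ) : ℝ) * Real.log 2)) (hA : HG3A T) (hB : HG3B T)
    (hC : HG3C T) (hm : HG4m) :
    ∃ (C : ℝ) (K : ℕ), 0 < C ∧ ∀ N : ℕ, 1 ≤ N → ∀ n : ℕ, n = 24 * N + 1 →
    ∀ i < 600 * N, ∀ j < 600 * N, ∀ F : ℝ, HasSum (trm n (PN N i * PN N j)) F →
      |F| ≤ C * (n : ℝ) ^ K * Real.exp (EE2 N i j) := by
  obtain ⟨Cv, hCv, hV2⟩ := V2_gen
  obtain ⟨CC, K, hCC, hind⟩ := index h10 h11 h12 h2 hT hA hB hC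
  have hCC0 : 0 < CC := by linarith
  refine ⟨Cv * CC, K, by positivity, ?_⟩
  intro N hN n hn i hi j hj F hF
  have hn1 : (1 : ℝ) ≤ n := by
    have : 1 ≤ n := by omega
    exact_mod_cast this
  obtain ⟨U, hUi, hUj, hUd⟩ : ∃ U : ℕ, (U = 24 * N ∨ (U = 0 ∧ i < 120 * N)) ∧
      (U = 24 * N ∨ (U = 0 ∧ j < 120 * N)) ∧
      (∀ t < U, (X - Polynomial.C (xq n t)) ^ 5 ∣ PN N i * PN N j) := by
    by_cases h : i < 120 * N ∧ j < 120 * N
    · exact ⟨0, Or.inr ⟨rfl, h.1⟩, Or.inr ⟨rfl, h.2⟩, fun t ht => absurd ht (by omega)⟩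
    · refine ⟨24 * N, Or.inl rfl, Or.inl rfl, fun t ht => ?_⟩
      have h1 : (X - Polynomial.C (xq n t)) ^ 5 ∣ MU N := by
        unfold MU
        rw [hn]
        exact Finset.dvd_prod_of_mem (fun u => (X - Polynomial.C (xq (24 * N + 1) u)) ^ 5)
          (Finset.mem_range.2 ht)
      by_cases hi' : i < 120 * N
      · have hj' : ¬ j < 120 * N := fun h' => h ⟨hi', h'⟩
        have h2 : MU N ∣ PN N j := by
          unfold PN
          rw [if_neg hj']
          exact Dvd.intro _ rfl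
        exact (h1.trans h2).trans (Dvd.intro_left _ rfl)
      · have h2 : MU N ∣ PN N i := by
          unfold PN
          rw [if_neg hi']
          exact Dvd.intro _ rfl
        exact (h1.trans h2).trans (Dvd.intro _ rfl)
  obtain ⟨Ri, mi, hmi, hPi, hbi⟩ := hind N hN n hn i U hUi
  obtain ⟨Rj, mj, hmj, hPj, hbj⟩ := hind N hN n hn j U hUj
  have hexp : EE2 N i j = (ax N i + ax N j) / 4 := by
    unfold EE2 ax; ring
  have hdeg : (PN N i * PN N j).natDegree ≤ 50 * n - 52 := by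
    have h1 := Polynomial.natDegree_mul_le (p := PN N i) (q := PN N j)
    rw [(hm hN i hi).2, (hm hN j hj).2] at h1
    omega
  rw [hexp, mul_assoc Cv CC, mul_assoc Cv]
  refine hV2 n (by omega) _ hdeg U hUd _ ?_ F hF
  intro r hr
  have hx := one_le_xv (n := n) (U := U) (by omega : 1 ≤ n) hr
  have hr1 : 0 < 1 + r ^ 2 := by positivity
  rw [← div_eq_mul_inv, le_div_iff₀ hr1, map_mul, norm_mul, hPi, hPj, map_mul, map_mul, map_pow,
    map_pow, aeval_X, norm_mul, norm_mul, norm_pow, norm_pow]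
  have hbi' := hbi r hr
  have hbj' := hbj r hr
  set x : ℝ := ‖xv n (zv U r)‖ with hxd
  set a : ℝ := ‖aeval (xv n (zv U r)) Ri‖ with had
  set b : ℝ := ‖aeval (xv n (zv U r)) Rj‖ with hbd
  have ha : 0 ≤ a := norm_nonneg _
  have hb : 0 ≤ b := norm_nonneg _
  have hx0 : 0 ≤ x := norm_nonneg _
  set f0 : ℝ := ‖Rv n (zv U r)‖ * Real.exp (-(2 * Real.pi * r)) * (1 + r ^ 2) with hf0
  have hf00 : 0 ≤ f0 := by rw [hf0]; positivity
  have hfw : fw n U r = f0 * x ^ 200 := by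
    rw [hf0, hxd]; unfold fw; ring
  have hL : ‖Rv n (zv U r)‖ * x ^ 55 * (a * x ^ mi * (b * x ^ mj)) *
      Real.exp (-(2 * Real.pi * r)) * (1 + r ^ 2) ≤ f0 * x ^ 200 * a * b := by
    have h1 : x ^ (55 + mi + mj) ≤ x ^ 200 := pow_le_pow_right₀ hx (by omega)
    calc _ = f0 * x ^ (55 + mi + mj) * a * b := by
          rw [hf0, pow_add, pow_add]; ring
      _ ≤ _ := by
          apply mul_le_mul_of_nonneg_right _ hb
          apply mul_le_mul_of_nonneg_right _ ha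
          exact mul_le_mul_of_nonneg_left h1 hf00
  refine hL.trans ?_
  have hnK : (1 : ℝ) ≤ (n : ℝ) ^ K := one_le_pow₀ hn1
  have hCn : 1 ≤ CC * (n : ℝ) ^ K := by nlinarith
  have h4 : (f0 * x ^ 200 * a * b) ^ 4 ≤
      (CC * (n : ℝ) ^ K * Real.exp ((ax N i + ax N j) / 4)) ^ 4 := by
    rw [hfw] at hbi' hbj'
    calc (f0 * x ^ 200 * a * b) ^ 4 = (f0 * x ^ 200 * a ^ 2) ^ 2 * (f0 * x ^ 200 * b ^ 2) ^ 2 := by
          ring
      _ ≤ (CC * (n : ℝ) ^ K * Real.exp (ax N i)) * (CC * (n : ℝ) ^ K * Real.exp (ax N j)) :=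
          mul_le_mul hbi' hbj' (by positivity) (by positivity)
      _ = (CC * (n : ℝ) ^ K) ^ 2 * Real.exp (ax N i + ax N j) := by
          rw [Real.exp_add]; ring
      _ ≤ (CC * (n : ℝ) ^ K) ^ 4 * Real.exp (ax N i + ax N j) := by
          apply mul_le_mul_of_nonneg_right _ (Real.exp_pos _).le
          exact pow_le_pow_right₀ hCn (by norm_num)
      _ = _ := by
          have : Real.exp (ax N i + ax N j) = Real.exp ((ax N i + ax N j) / 4) ^ 4 := by
            rw [← Real.exp_nat_mul]; congr 1; push_cast; ring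
          rw [this]; ring
  exact le_of_pow_le_pow_left₀ (four_ne_zero : (4:ℕ) ≠ 0) (by positivity) h4

theorem entry : ∃ (C : ℝ) (K : ℕ), 0 < C ∧ ∀ N : ℕ, 1 ≤ N → ∀ n : ℕ, n = 24 * N + 1 →
    ∀ i < 600 * N, ∀ j < 600 * N, ∀ F : ℝ, HasSum (trm n (PN N i * PN N j)) F →
      |F| ≤ C * (n : ℝ) ^ K * Real.exp (EE2 N i j) :=
  entry_of G1_0 G1_1 G1_2 (fun hN c a b ha hb ρ hρ => G2_qa hN c a b ha hb ρ hρ)
    (G4eAux.pow_eq_exp 38000) G3_A G3_B G3_C (fun hN i hi => G4_monic hN i hi)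

end

end Pool.Agent.TH957.ZM
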