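import Pool.Agent.TH957.ZM.Gen

/-!
# The perturbation is smaller than the bound of the entries
-/

open Polynomial Pool.Agent.H337R2 Pool.Agent.H343Z Filter Topology

namespace Pool.Agent.TH957.ZM

noncomputable section

set_option autoImplicit false

lemma Lam_ge : (24000 : ℝ) ≤ Lam := by
  have h2 := Real.log_two_gt_d9
  have h3 : 19 * Real.log 2 ≤ 12 * Real.log 3 := by
    have h1 : Real.log ((2 : ℝ) ^ 19) ≤ Real.log ((3 : ℝ) ^ 12) := by
      apply Real.log_le_log (by norm_num)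
      norm_num
    rw [Real.log_pow, Real.log_pow] at h1
    push_cast at h1
    exact h1
  have e1 : Real.log 288 = 5 * Real.log 2 + 2 * Real.log 3 := by
    rw [show (288 : ℝ) = 2 ^ 5 * 3 ^ 2 by norm_num, Real.log_mul (by norm_num) (by norm_num), Real.log_pow,
      Real.log_pow]
    push_cast; ring
  have e2 : Real.log 48 = 4 * Real.log 2 + Real.log 3 := by
    rw [show (48 : ℝ) = 2 ^ 4 * 3 by norm_num, Real.log_mul (by norm_num) (by norm_num), Real.log_pow]
    push_cast; ring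
  unfold Lam
  rw [e1, e2]
  norm_num at h2 ⊢
  linarith

/-- lower bound for the exponent of the entries -/
lemma EE2_ge {N i j : ℕ} : 2 * ((i : ℝ) + j) * Real.log N - 1172 * N ≤ EE2 N i j := by
  have hL := Lam_ge
  have h2 := Real.log_two_lt_d9
  have h20 : 0 < Real.log 2 := Real.log_pos (by norm_num)
  have hN : (0 : ℝ) ≤ N := by positivity
  have h3 : 24000 * (N : ℝ) ≤ Lam * N := mul_le_mul_of_nonneg_right hL hN
  have h4 : 0 ≤ ((EX N i : ℝ) + EX N j) * Real.log 2 := by positivity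
  have h5 : (N : ℝ) * Real.log 2 ≤ N * 0.6931471808 := mul_le_mul_of_nonneg_left h2.le hN
  unfold EE2
  norm_num at h5
  nlinarith

/-- the size of the coefficients -/
lemma rho_real {n N : ℕ} (hN : 1 ≤ N) (hn : n = 24 * N + 1) {i j : ℕ} (hi : i < 600 * N)
    (hj : j < 600 * N) (l : ℕ) :
    |((rho n (PN N i * PN N j) l : ℚ) : ℝ)| ≤
      (18 * 20 * 326 ^ 10 * 400 ^ 55) * (n : ℝ) ^ 122 * Real.exp (18568 * N + 2 * ((i : ℝ) + j) * Real.log N) := by
  have h1 := rho_le hN hn hi hj l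
  have h2 : |((rho n (PN N i * PN N j) l : ℚ) : ℝ)| ≤
      (18 * n) * (2 ^ (210 * n) * (20 * n) * (400 * (n : ℝ) ^ 2) ^ (55 + (i + j)) * (326 * n) ^ 10) := by
    have : ((|rho n (PN N i * PN N j) l| : ℚ) : ℝ) ≤
      (((18 * n) * (2 ^ (210 * n) * (20 * n) * (MM n) ^ (55 + (i + j)) * (326 * n) ^ 10) : ℚ) : ℝ) := by
      exact_mod_cast h1
    unfold MM at this
    push_cast at this
    exact this
  refine h2.trans ?_
  have hN1 : (1 : ℝ) ≤ N := by exact_mod_cast hN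
  have hN0 : (0 : ℝ) < N := by linarith
  have hnr : (n : ℝ) = 24 * N + 1 := by rw [hn]; push_cast; ring
  have hn25 : (n : ℝ) ≤ 25 * N := by rw [hnr]; linarith
  have hn0 : (0 : ℝ) < n := by rw [hnr]; linarith
  -- powers of two
  have p1 : (2 : ℝ) ^ (210 * n) ≤ Real.exp (3640 * N) := by
    rw [← Real.exp_log (by norm_num : (0 : ℝ) < 2), ← Real.exp_nat_mul, Real.exp_le_exp]
    have h3 := Real.log_two_lt_d9
    have h4 : ((210 * n : ℕ) : ℝ) = 210 * (24 * N + 1) := by push_cast; rw [hnr]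
    rw [h4]
    norm_num at h3
    nlinarith
  have p2 : (400 * (n : ℝ) ^ 2) ^ (i + j) ≤ Real.exp (14928 * N + 2 * ((i : ℝ) + j) * Real.log N) := by
    have h3 : 400 * (n : ℝ) ^ 2 ≤ 250000 * (N : ℝ) ^ 2 := by
      have : (n : ℝ) ^ 2 ≤ (25 * N) ^ 2 := pow_le_pow_left₀ hn0.le hn25 2
      nlinarith
    have h4 : Real.log 250000 ≤ 12.44 := by
      have h5 : (250000 : ℝ) = 2 ^ 18 * (250000 / 262144) := by norm_num
      rw [h5, Real.log_mul (by norm_num) (by norm_num), Real.log_pow]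
      have h6 : Real.log (250000 / 262144) ≤ 250000 / 262144 - 1 := Real.log_le_sub_one_of_pos (by norm_num)
      have h7 := Real.log_two_lt_d9
      push_cast
      norm_num at h6 h7 ⊢
      linarith
    have h5 : (250000 : ℝ) * (N : ℝ) ^ 2 = Real.exp (Real.log 250000 + 2 * Real.log N) := by
      rw [Real.exp_add, Real.exp_log (by norm_num)]
      congr 1
      rw [← Real.exp_log hN0, ← Real.exp_nat_mul, Real.exp_log hN0]
      norm_num
    calc _ ≤ (250000 * (N : ℝ) ^ 2) ^ (i + j) := pow_le_pow_left₀ (by positivity) h3 _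
      _ = Real.exp ((i + j : ℕ) * (Real.log 250000 + 2 * Real.log N)) := by rw [h5, ← Real.exp_nat_mul]
      _ ≤ _ := by
          apply Real.exp_le_exp.2
          have h6 : ((i + j : ℕ) : ℝ) ≤ 1200 * N := by
            have : i + j ≤ 1200 * N := by omega
            exact_mod_cast this
          have h7 : 0 ≤ ((i + j : ℕ) : ℝ) := by positivity
          have h8 : ((i + j : ℕ) : ℝ) * Real.log 250000 ≤ (1200 * N) * 12.44 := by
            apply mul_le_mul h6 h4 (Real.log_nonneg (by norm_num)) (by positivity)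
          push_cast at h8 ⊢
          nlinarith
  have e1 : (18 * (n : ℝ)) * (2 ^ (210 * n) * (20 * n) * (400 * (n : ℝ) ^ 2) ^ (55 + (i + j)) * (326 * n) ^ 10) =
      ((18 * 20 * 326 ^ 10 * 400 ^ 55) * (n : ℝ) ^ 122) * (2 ^ (210 * n) * (400 * (n : ℝ) ^ 2) ^ (i + j)) := by
    rw [pow_add]
    ring
  rw [e1]
  have hc : 0 ≤ (18 * 20 * 326 ^ 10 * 400 ^ 55) * (n : ℝ) ^ 122 := by positivity
  calc _ ≤ ((18 * 20 * 326 ^ 10 * 400 ^ 55) * (n : ℝ) ^ 122) *
        (Real.exp (3640 * N) * Real.exp (14928 * N + 2 * ((i : ℝ) + j) * Real.log N)) := by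
        gcongr
    _ = _ := by
        rw [← Real.exp_add]
        congr 2
        ring

/-- the constant -/
def c0 : ℝ := 790 * (18 * 20 * 326 ^ 10 * 400 ^ 55)

lemma poly_small (C : ℝ) (K : ℕ) (hC : 0 < C) : ∀ᶠ N : ℕ in atTop,
    c0 * ((24 * N + 1 : ℕ) : ℝ) ^ 122 ≤ C * ((24 * N + 1 : ℕ) : ℝ) ^ K * Real.exp (60 * N) := by
  have h1 : Tendsto (fun N : ℕ => ((N : ℝ)) ^ 122 * Real.exp (-(N : ℝ))) atTop (𝓝 0) :=
    (Real.tendsto_pow_mul_exp_neg_atTop_nhds_zero 122).comp tendsto_natCast_atTop_atTop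
  have h2 : Tendsto (fun N : ℕ => (c0 * 25 ^ 122) * ((N : ℝ) ^ 122 * Real.exp (-(N : ℝ)))) atTop (𝓝 ((c0 * 25 ^ 122) * 0)) :=
    h1.const_mul _
  rw [mul_zero] at h2
  filter_upwards [h2.eventually (gt_mem_nhds hC), eventually_ge_atTop 1] with N h3 hN
  have hN1 : (1 : ℝ) ≤ N := by exact_mod_cast hN
  have hc0 : 0 ≤ c0 := by unfold c0; positivity
  have e0 : ((24 * N + 1 : ℕ) : ℝ) ≤ 25 * N := by push_cast; linarith
  have e1 : ((24 * N + 1 : ℕ) : ℝ) ^ 122 ≤ 25 ^ 122 * (N : ℝ) ^ 122 := by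
    rw [← mul_pow]
    exact pow_le_pow_left₀ (by positivity) e0 122
  have e2 : (1 : ℝ) ≤ ((24 * N + 1 : ℕ) : ℝ) ^ K := by
    apply one_le_pow₀
    push_cast
    linarith
  calc c0 * ((24 * N + 1 : ℕ) : ℝ) ^ 122 ≤ c0 * (25 ^ 122 * (N : ℝ) ^ 122) := mul_le_mul_of_nonneg_left e1 hc0
    _ = ((c0 * 25 ^ 122) * ((N : ℝ) ^ 122 * Real.exp (-(N : ℝ)))) * Real.exp N := by
        have : Real.exp (-(N : ℝ)) * Real.exp N = 1 := by rw [← Real.exp_add]; simp
        calc _ = (c0 * 25 ^ 122) * (N : ℝ) ^ 122 * 1 := by ring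
          _ = _ := by rw [← this]; ring
    _ ≤ C * Real.exp N := mul_le_mul_of_nonneg_right h3.le (Real.exp_pos _).le
    _ ≤ C * ((24 * N + 1 : ℕ) : ℝ) ^ K * Real.exp (60 * N) := by
        have h5 : Real.exp (N : ℝ) ≤ Real.exp (60 * N) := Real.exp_le_exp.2 (by linarith)
        calc C * Real.exp N ≤ C * (1 * Real.exp (60 * N)) := by
              rw [one_mul]
              exact mul_le_mul_of_nonneg_left h5 hC.le
          _ ≤ C * (((24 * N + 1 : ℕ) : ℝ) ^ K * Real.exp (60 * N)) := by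
              apply mul_le_mul_of_nonneg_left _ hC.le
              exact mul_le_mul_of_nonneg_right e2 (Real.exp_pos _).le
          _ = _ := by ring

/-- the entries at rational points close to the zeta values -/
theorem entry_pert : ∃ (C : ℝ) (K : ℕ), 0 < C ∧ ∀ᶠ N : ℕ in atTop, ∀ n : ℕ, n = 24 * N + 1 → ∀ u : ℕ → ℚ,
    (∀ l, (l = 3 ∨ l = 5 ∨ l = 7 ∨ l = 9) → |zr (l + 4) - (u l : ℝ)| ≤ Real.exp (-(825 * n))) →
    ∀ i < 600 * N, ∀ j < 600 * N, |((NL n u (PN N i * PN N j) : ℚ) : ℝ)| ≤ C * (n : ℝ) ^ K *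
      Real.exp ((2 * (Lam * N) + 8 * (i + j) * Real.log N + ((EX N i : ℝ) + EX N j - 76000 * N) * Real.log 2) / 4) := by
  obtain ⟨C, K, hC, hE⟩ := entry
  refine ⟨2 * C, K, by positivity, ?_⟩
  filter_upwards [poly_small C K hC, eventually_ge_atTop 1] with N hpoly hN n hn u hu i hi j hj
  have hN1 : (1 : ℝ) ≤ N := by exact_mod_cast hN
  have hnr : (n : ℝ) = 24 * N + 1 := by rw [hn]; push_cast; ring
  have hdeg : (PN N i * PN N j).natDegree ≤ 50 * n - 52 := by
    have h1 := Polynomial.natDegree_mul_le (p := PN N i) (q := PN N j)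
    rw [(G4_monic hN i hi).2, (G4_monic hN j hj).2] at h1
    omega
  obtain ⟨F, hF1, hF2⟩ := hasSum_gen (by omega : 2 ≤ n) u (PN N i * PN N j) hdeg
  have h1 := hE N hN n hn i hi j hj F hF1
  set A : ℝ := (18 * 20 * 326 ^ 10 * 400 ^ 55) * (n : ℝ) ^ 122 * Real.exp (18568 * N + 2 * ((i : ℝ) + j) * Real.log N) with hA
  have hA0 : 0 ≤ A := by rw [hA]; positivity
  set η : ℝ := Real.exp (-(825 * (n : ℝ))) with hη
  have h2 : |F - ((NL n u (PN N i * PN N j) : ℚ) : ℝ)| ≤ 790 * A * η := by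
    rw [hF2]
    refine (Finset.abs_sum_le_sum_abs _ _).trans ?_
    have h3 : ∀ l ∈ Finset.Icc 1 10, |((Nat.choose (l + 3) 4 : ℕ) : ℝ) * ((rho n (PN N i * PN N j) l : ℚ) : ℝ) *
        (zr (l + 4) - (u l : ℝ))| ≤ (if l = 3 ∨ l = 5 ∨ l = 7 ∨ l = 9 then ((Nat.choose (l + 3) 4 : ℕ) : ℝ) else 0) * (A * η) := by
      intro l hl
      rw [Finset.mem_Icc] at hl
      split_ifs with h
      · rw [abs_mul, abs_mul, Nat.abs_cast, mul_assoc]
        apply mul_le_mul_of_nonneg_left _ (by positivity)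
        exact mul_le_mul (rho_real hN hn hi hj l) (hu l h) (abs_nonneg _) hA0
      · rw [rho_zero (by omega) _ hdeg l hl.1 hl.2 h]
        simp
    refine (Finset.sum_le_sum h3).trans ?_
    rw [← Finset.sum_mul]
    have h4 : ∑ l ∈ Finset.Icc 1 10, (if l = 3 ∨ l = 5 ∨ l = 7 ∨ l = 9 then ((Nat.choose (l + 3) 4 : ℕ) : ℝ) else 0) = 790 := by
      have h5 : ∑ l ∈ Finset.Icc 1 10, (if l = 3 ∨ l = 5 ∨ l = 7 ∨ l = 9 then (Nat.choose (l + 3) 4 : ℕ) else 0) = 790 := by
        decide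
      have h6 : ((∑ l ∈ Finset.Icc 1 10, (if l = 3 ∨ l = 5 ∨ l = 7 ∨ l = 9 then (Nat.choose (l + 3) 4 : ℕ) else 0) : ℕ) : ℝ) = 790 := by
        rw [h5]; norm_num
      push_cast at h6
      exact h6
    rw [h4]
    linarith
  have h3 : 790 * A * η ≤ C * (n : ℝ) ^ K * Real.exp (EE2 N i j) := by
    have e1 : 790 * A * η = (c0 * (n : ℝ) ^ 122) * Real.exp (18568 * N + 2 * ((i : ℝ) + j) * Real.log N - 825 * n) := by
      have e2 : Real.exp (18568 * N + 2 * ((i : ℝ) + j) * Real.log N - 825 * n) =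
          Real.exp (18568 * N + 2 * ((i : ℝ) + j) * Real.log N) * Real.exp (-(825 * (n : ℝ))) := by
        rw [← Real.exp_add, sub_eq_add_neg]
      rw [hA, hη, e2]
      unfold c0
      ring
    rw [e1]
    have h4 : Real.exp (18568 * N + 2 * ((i : ℝ) + j) * Real.log N - 825 * n) ≤
        Real.exp (-(60 * N)) * Real.exp (EE2 N i j) := by
      rw [← Real.exp_add, Real.exp_le_exp]
      have := EE2_ge (N := N) (i := i) (j := j)
      rw [hnr]
      linarith
    have h5 : c0 * (n : ℝ) ^ 122 ≤ C * (n : ℝ) ^ K * Real.exp (60 * N) := by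
      rw [hn]
      exact hpoly
    have hc0 : 0 ≤ c0 * (n : ℝ) ^ 122 := by unfold c0; positivity
    calc _ ≤ (C * (n : ℝ) ^ K * Real.exp (60 * N)) * (Real.exp (-(60 * N)) * Real.exp (EE2 N i j)) := by
          gcongr
      _ = _ := by
          have : Real.exp (60 * (N : ℝ)) * Real.exp (-(60 * (N : ℝ))) = 1 := by rw [← Real.exp_add]; simp
          calc _ = C * (n : ℝ) ^ K * (Real.exp (60 * (N : ℝ)) * Real.exp (-(60 * (N : ℝ)))) * Real.exp (EE2 N i j) := by ring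
            _ = _ := by rw [this, mul_one]
  have h4 : |((NL n u (PN N i * PN N j) : ℚ) : ℝ)| ≤ |F| + |F - ((NL n u (PN N i * PN N j) : ℚ) : ℝ)| := by
    have := abs_sub_abs_le_abs_sub ((NL n u (PN N i * PN N j) : ℚ) : ℝ) F
    rw [abs_sub_comm] at this
    linarith
  have h5 : Real.exp (EE2 N i j) = Real.exp ((2 * (Lam * N) + 8 * (i + j) * Real.log N + ((EX N i : ℝ) + EX N j - 76000 * N) * Real.log 2) / 4) := rfl
  rw [← h5]
  linarith

end

end Pool.Agent.TH957.ZM
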