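import Pool.Agent.TH957.WM.Coef
import Pool.Agent.H343Z.G4m

/-!
# Exponential bounds for the coefficients of the linear forms in `1, ζ(7), ζ(9), ζ(11), ζ(13)`
-/

open Polynomial Pool.Agent.H337R2 Pool.Agent.H343Z

namespace Pool.Agent.TH957.ZM

noncomputable section

set_option autoImplicit false

lemma AB_mono {c c' A A' : ℚ} {f : PowerSeries ℚ} (h : AB c A f) (hc : 0 ≤ c) (hcc : c ≤ c') (hA : 0 ≤ A)
    (hAA : A ≤ A') : AB c' A' f := by
  intro j
  refine (h j).trans ?_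
  exact mul_le_mul hAA (pow_le_pow_left₀ hc hcc j) (by positivity) (hA.trans hAA)

lemma AB_add {c A A' : ℚ} {f g : PowerSeries ℚ} (h : AB c A f) (h' : AB c A' g) : AB c (A + A') (f + g) := by
  intro j
  rw [map_add, add_mul]
  exact (abs_add_le _ _).trans (add_le_add (h j) (h' j))

/-- the basic factor of all coefficients -/
theorem base_AB (b h c n : ℕ) (ds : List ℕ) (hn : 1 ≤ n)
    (hc : ∀ d ∈ ds, c < d) (h2 : ∀ d ∈ ds, 2 * d < h) {k : ℕ} (hk : k ∈ ss h c n) :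
    AB (1 + 2 * b * (c * n) + ∑ m ∈ ss h c n, mu h n ds m : ℚ)
      (2 ^ ((b * h + (ds.map fun d => h - 2 * d).sum) * n) * (h * n + 2))
      (TS (-(k : ℚ)) (PP b h c n ds) * VV ((ss h c n).erase k) (mu h n ds) (-(k : ℚ))) := by
  intro j
  have := WM.pfc_le b h c n ds hn hc h2 hk j
  unfold pfc at this
  exact this

/-- the coefficients when the numerator is multiplied by a polynomial -/
theorem pa_mul_le (b h c n : ℕ) (ds : List ℕ) (hn : 1 ≤ n)
    (hc : ∀ d ∈ ds, c < d) (h2 : ∀ d ∈ ds, 2 * d < h) {k : ℕ} (hk : k ∈ ss h c n) (E : ℚ[X]) (cE BE : ℚ)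
    (hcE : 0 ≤ cE) (hBE : 0 ≤ BE) (hE : AB cE BE (TS (-(k : ℚ)) E)) (i : ℕ) :
    |pa (ss h c n) (mu h n ds) (PP b h c n ds * E) k i| ≤
      2 ^ ((b * h + (ds.map fun d => h - 2 * d).sum) * n) * (h * n + 2) * BE *
        (1 + 2 * b * (c * n) + ∑ m ∈ ss h c n, mu h n ds m + cE : ℚ) ^ ds.length := by
  have h1 : (1 : ℚ) ≤ 1 + 2 * b * (c * n) + ∑ m ∈ ss h c n, mu h n ds m + cE := by
    have : (0 : ℚ) ≤ 2 * b * (c * n) + ∑ m ∈ ss h c n, (mu h n ds m : ℚ) := by positivity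
    push_cast at this ⊢
    linarith
  unfold pa
  split_ifs with hi
  · unfold pfc
    rw [(TS (-(k : ℚ))).map_mul]
    have e : TS (-(k : ℚ)) (PP b h c n ds) * TS (-(k : ℚ)) E * VV ((ss h c n).erase k) (mu h n ds) (-(k : ℚ)) =
        (TS (-(k : ℚ)) (PP b h c n ds) * VV ((ss h c n).erase k) (mu h n ds) (-(k : ℚ))) * TS (-(k : ℚ)) E := by
      ring
    rw [e]
    have h3 := AB.mul (by positivity) hcE (by positivity) hBE (base_AB b h c n ds hn hc h2 hk) hE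
    refine (h3 _).trans ?_
    apply mul_le_mul_of_nonneg_left _ (by positivity)
    push_cast
    push_cast at h1
    apply pow_le_pow_right₀ h1
    have := mu_le_length h n ds k
    omega
  · rw [abs_zero]
    positivity

/-- the common bound of the local factors -/
def MM (n : ℕ) : ℚ := 400 * n ^ 2

lemma MM_ge_one {n : ℕ} (hn : 1 ≤ n) : 1 ≤ MM n := by
  unfold MM
  have : (1 : ℚ) ≤ n := by exact_mod_cast hn
  nlinarith

/-- monic polynomials in `x` whose local expansions are bounded by `M ^ deg` -/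
def SM (n k : ℕ) (Q : ℚ[X]) : Prop :=
  Q.Monic ∧ AB (Q.natDegree : ℚ) (MM n ^ Q.natDegree) (TS (-(k : ℚ)) (Q.comp (xp n)))

lemma SM.one (n k : ℕ) : SM n k 1 := by
  refine ⟨monic_one, ?_⟩
  rw [natDegree_one, one_comp, map_one, pow_zero, Nat.cast_zero]
  exact AB.one

lemma SM.mul {n k : ℕ} {P Q : ℚ[X]} (hP : SM n k P) (hQ : SM n k Q) : SM n k (P * Q) := by
  refine ⟨hP.1.mul hQ.1, ?_⟩
  have hM : 0 ≤ MM n := by unfold MM; positivity
  rw [hP.1.natDegree_mul hQ.1, mul_comp, map_mul, pow_add]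
  push_cast
  exact AB.mul (by positivity) (by positivity) (by positivity) (by positivity) hP.2 hQ.2

lemma SM.pow {n k : ℕ} {P : ℚ[X]} (hP : SM n k P) (e : ℕ) : SM n k (P ^ e) := by
  induction e with
  | zero => rw [pow_zero]; exact SM.one n k
  | succ e ih => rw [pow_succ]; exact ih.mul hP

lemma SM.prod {n k : ℕ} {ι : Type} (s : Finset ι) (f : ι → ℚ[X]) (h : ∀ i ∈ s, SM n k (f i)) :
    SM n k (∏ i ∈ s, f i) := by
  classical
  induction s using Finset.induction_on with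
  | empty => rw [Finset.prod_empty]; exact SM.one n k
  | insert a s ha ih =>
    rw [Finset.prod_insert ha]
    exact (h a (Finset.mem_insert_self _ _)).mul (ih fun i hi => h i (Finset.mem_insert_of_mem hi))

lemma TS_xp (n k : ℕ) : TS (-(k : ℚ)) (xp n) =
    PowerSeries.X ^ 2 + PowerSeries.C (18 * (n : ℚ) - 2 * k) * PowerSeries.X +
      PowerSeries.C (-(k * (18 * (n : ℚ) - k))) := by
  unfold xp
  rw [map_mul, TS_X, TS_lin]
  have e : PowerSeries.C (18 * (n : ℚ) - 2 * k) = PowerSeries.C (-(k : ℚ)) + PowerSeries.C (-(k : ℚ) + ((18 * n : ℕ) : ℚ)) := by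
    rw [← map_add]
    congr 1
    push_cast
    ring
  have e2 : PowerSeries.C (-(k * (18 * (n : ℚ) - k))) = PowerSeries.C (-(k : ℚ)) * PowerSeries.C (-(k : ℚ) + ((18 * n : ℕ) : ℚ)) := by
    rw [← map_mul]
    congr 1
    push_cast
    ring
  rw [e, e2]
  ring

lemma AB_quad {A β γ : ℚ} (h1 : 1 ≤ A) (hβ : |β| ≤ A) (hγ : |γ| ≤ A) :
    AB 1 A (PowerSeries.X ^ 2 + PowerSeries.C β * PowerSeries.X + PowerSeries.C γ) := by
  intro j
  rw [one_pow, mul_one, map_add, map_add, PowerSeries.coeff_C_mul, PowerSeries.coeff_X_pow, PowerSeries.coeff_C,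
    PowerSeries.coeff_X]
  rcases j with _ | _ | _ | j
  · simpa using hγ
  · simpa using hβ
  · simpa using h1
  · simp only [Nat.add_eq_zero_iff, one_ne_zero, and_false, if_false]
    rw [if_neg (by omega), if_neg (by omega)]
    simp
    linarith

/-- linear factors in `x` -/
lemma AB_lin {n k : ℕ} (hn : 1 ≤ n) (hk : k ≤ 18 * n) {α A : ℚ} (hA : 18 * (n : ℚ) ≤ A)
    (hα1 : α ≤ A - 81 * n ^ 2) (hα2 : -A ≤ α) :
    AB 1 A (TS (-(k : ℚ)) ((X - C α).comp (xp n))) := by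
  have hn1 : (1 : ℚ) ≤ n := by exact_mod_cast hn
  have hk1 : (k : ℚ) ≤ 18 * n := by exact_mod_cast hk
  have hk0 : (0 : ℚ) ≤ k := by positivity
  have hx0 : 0 ≤ (k : ℚ) * (18 * n - k) := mul_nonneg hk0 (by linarith)
  have hx1 : (k : ℚ) * (18 * n - k) ≤ 81 * n ^ 2 := by nlinarith [sq_nonneg ((k : ℚ) - 9 * n)]
  have e : TS (-(k : ℚ)) ((X - C α).comp (xp n)) = PowerSeries.X ^ 2 +
      PowerSeries.C (18 * (n : ℚ) - 2 * k) * PowerSeries.X + PowerSeries.C (-(k * (18 * (n : ℚ) - k)) - α) := by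
    rw [sub_comp, X_comp, C_comp, (TS (-(k : ℚ))).map_sub, TS_C, TS_xp, map_sub PowerSeries.C _ α]
    ring
  rw [e]
  apply AB_quad
  · linarith
  · rw [abs_le]
    constructor <;> linarith
  · rw [abs_le]
    constructor <;> linarith

lemma SM_lin {n k : ℕ} (hn : 1 ≤ n) (hk : k ≤ 18 * n) {α : ℚ} (hα1 : α ≤ 319 * n ^ 2)
    (hα2 : -(400 * (n : ℚ) ^ 2) ≤ α) : SM n k (X - C α) := by
  have hn1 : (1 : ℚ) ≤ n := by exact_mod_cast hn
  refine ⟨monic_X_sub_C α, ?_⟩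
  rw [natDegree_X_sub_C, Nat.cast_one, pow_one]
  apply AB_lin hn hk
  · unfold MM; nlinarith
  · unfold MM; linarith
  · unfold MM; linarith

lemma SM_X {n k : ℕ} (hn : 1 ≤ n) (hk : k ≤ 18 * n) : SM n k X := by
  have := SM_lin (α := 0) hn hk (by positivity) (by
    have : (0 : ℚ) ≤ 400 * (n : ℚ) ^ 2 := by positivity
    linarith)
  rwa [C_0, sub_zero] at this

lemma SM_qa {n k N : ℕ} (hN : 1 ≤ N) (hn : n = 24 * N + 1) (hk : k ≤ 18 * n) {a b : ℚ} (ha : 1 / 2 ≤ a)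
    (ha2 : a ≤ 161) (hb : 0 ≤ b) (hb2 : b ≤ 136) : SM n k (qa N a b) := by
  have hn1 : 1 ≤ n := by omega
  have hnq : (n : ℚ) = 24 * N + 1 := by rw [hn]; push_cast; ring
  have hN1 : (1 : ℚ) ≤ N := by exact_mod_cast hN
  have hNn : 24 * (N : ℚ) ≤ n := by rw [hnq]; linarith
  have hn0 : (0 : ℚ) < n := by rw [hnq]; linarith
  refine ⟨(G4m.qa_monic N a b).1, ?_⟩
  rw [(G4m.qa_monic N a b).2]
  have hNa0 : 1 / 2 ≤ (N : ℚ) * a := by nlinarith
  have hNa : (N : ℚ) * a ≤ 161 / 24 * n := by nlinarith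
  have hNb0 : 0 ≤ (N : ℚ) * b := by positivity
  have hNb : (N : ℚ) * b ≤ 136 / 24 * n := by nlinarith
  set α : ℚ := ((N : ℚ) * a - 1 / 2) * ((N : ℚ) * a - 1 / 2 + 18 * (24 * (N : ℚ) + 1)) - ((N : ℚ) * b) ^ 2 with hα
  set β : ℚ := ((N : ℚ) * b * (2 * ((N : ℚ) * a - 1 / 2) + 18 * (24 * (N : ℚ) + 1))) with hβ
  have e0 : qa N a b = (X - C α) ^ 2 + C (β ^ 2) := by
    unfold qa
    rw [hα, hβ]
  have hα1 : α ≤ 166 * n ^ 2 := by
    have h1 : ((N : ℚ) * a - 1 / 2) * ((N : ℚ) * a - 1 / 2 + 18 * (24 * (N : ℚ) + 1)) ≤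
        (161 / 24 * n) * (161 / 24 * n + 18 * n) := by
      apply mul_le_mul
      · linarith
      · rw [← hnq]; linarith
      · rw [← hnq]; nlinarith
      · positivity
    have h2 : 0 ≤ ((N : ℚ) * b) ^ 2 := sq_nonneg _
    rw [hα]
    nlinarith
  have hα2 : -(33 * (n : ℚ) ^ 2) ≤ α := by
    have h1 : 0 ≤ ((N : ℚ) * a - 1 / 2) * ((N : ℚ) * a - 1 / 2 + 18 * (24 * (N : ℚ) + 1)) := by
      apply mul_nonneg (by linarith)
      rw [← hnq]
      linarith
    have h2 : ((N : ℚ) * b) ^ 2 ≤ (136 / 24 * n) ^ 2 := pow_le_pow_left₀ hNb0 hNb 2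
    rw [hα]
    nlinarith
  have hβ0 : 0 ≤ β := by
    rw [hβ, ← hnq]
    apply mul_nonneg hNb0
    linarith
  have hβ1 : β ≤ 179 * n ^ 2 := by
    rw [hβ, ← hnq]
    have h1 : (N : ℚ) * b * (2 * ((N : ℚ) * a - 1 / 2) + 18 * n) ≤ (136 / 24 * n) * (2 * (161 / 24 * n) + 18 * n) := by
      apply mul_le_mul hNb
      · linarith
      · linarith
      · positivity
    nlinarith
  rw [e0, add_comp, pow_comp, C_comp, map_add, map_pow, TS_C]
  have h1 : AB 1 (247 * n ^ 2) (TS (-(k : ℚ)) ((X - C α).comp (xp n))) := by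
    apply AB_lin hn1 hk
    · have : (1 : ℚ) ≤ n := by exact_mod_cast hn1
      nlinarith
    · linarith
    · linarith [sq_nonneg (n : ℚ)]
  have h2 := AB.pow zero_le_one (by positivity) h1 2
  have h3 : AB 0 (β ^ 2) (PowerSeries.C (β ^ 2)) := AB.C (by rw [abs_of_nonneg (sq_nonneg β)])
  have h4 : AB (((2 : ℕ) : ℚ)) ((247 * (n : ℚ) ^ 2) ^ 2) (TS (-(k : ℚ)) ((X - C α).comp (xp n)) ^ 2) := by
    have := h2
    rwa [mul_one] at this
  have h5 : AB (((2 : ℕ) : ℚ)) (β ^ 2) (PowerSeries.C (β ^ 2)) :=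
    AB_mono h3 le_rfl (by norm_num) (sq_nonneg _) le_rfl
  refine AB_mono (AB_add h4 h5) (by norm_num) le_rfl (by positivity) ?_
  have h6 : β ^ 2 ≤ (179 * (n : ℚ) ^ 2) ^ 2 := pow_le_pow_left₀ hβ0 hβ1 2
  unfold MM
  nlinarith [sq_nonneg ((n : ℚ) ^ 2)]

lemma SM_C1 {n k N s : ℕ} (hN : 1 ≤ N) (hn : n = 24 * N + 1) (hk : k ≤ 18 * n) : SM n k (C1 N s) := by
  unfold C1
  apply SM.prod
  intro κ hκ
  rw [Finset.mem_range] at hκ
  apply SM.pow
  apply SM_qa hN hn hk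
  all_goals interval_cases κ <;> norm_num [at1, la1]

lemma SM_C2 {n k N s : ℕ} (hN : 1 ≤ N) (hn : n = 24 * N + 1) (hk : k ≤ 18 * n) : SM n k (C2 N s) := by
  unfold C2
  apply SM.prod
  intro κ hκ
  rw [Finset.mem_range] at hκ
  apply SM.pow
  apply SM_qa hN hn hk
  all_goals interval_cases κ <;> norm_num [at2, la2]

lemma SM_MU {n k N : ℕ} (hN : 1 ≤ N) (hn : n = 24 * N + 1) (hk : k ≤ 18 * n) : SM n k (MU N) := by
  unfold MU
  apply SM.prod
  intro u hu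
  rw [Finset.mem_range] at hu
  apply SM.pow
  have hu2 : u ≤ n := by omega
  have hu3 : (u : ℚ) ≤ n := by exact_mod_cast hu2
  have hu0 : (0 : ℚ) ≤ u := by positivity
  have e : xq (24 * N + 1) u = (u : ℚ) * (u + 18 * n) := by
    unfold xq
    rw [hn]
    push_cast
    ring
  rw [e]
  have h0 : (0 : ℚ) ≤ n := by positivity
  apply SM_lin (by omega) hk
  · have h1 : (u : ℚ) * (u + 18 * n) ≤ n * (n + 18 * n) := by
      apply mul_le_mul hu3 _ (by positivity) h0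
      linarith
    nlinarith [sq_nonneg (n : ℚ)]
  · have h1 : 0 ≤ (u : ℚ) * (u + 18 * n) := by positivity
    have h2 : 0 ≤ 400 * (n : ℚ) ^ 2 := by positivity
    linarith

lemma SM_PN {n k N : ℕ} (hN : 1 ≤ N) (hn : n = 24 * N + 1) (hk : k ≤ 18 * n) (i : ℕ) : SM n k (PN N i) := by
  have hX := SM_X (n := n) (k := k) (by omega) hk
  unfold PN
  split_ifs
  · unfold P1
    exact (SM.prod _ _ fun s _ => (SM_C1 hN hn hk).pow _).mul (hX.pow _)
  · unfold P2
    exact (SM_MU hN hn hk).mul ((SM.prod _ _ fun s _ => (SM_C2 hN hn hk).pow _).mul (hX.pow _))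

/-- the bound of the local expansions of the extra factor -/
lemma AB_EE {n k N : ℕ} (hN : 1 ≤ N) (hn : n = 24 * N + 1) (hk : k ≤ 18 * n) {i j : ℕ} (hi : i < 600 * N)
    (hj : j < 600 * N) :
    AB ((55 + (i + j) : ℕ) : ℚ) (MM n ^ (55 + (i + j))) (TS (-(k : ℚ)) (EE n (PN N i * PN N j))) := by
  have hX := SM_X (n := n) (k := k) (by omega) hk
  have h1 := (hX.pow 55).mul ((SM_PN hN hn hk i).mul (SM_PN hN hn hk j))
  have h2 : (X ^ 55 * (PN N i * PN N j) : ℚ[X]).natDegree = 55 + (i + j) := by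
    rw [(hX.pow 55).1.natDegree_mul ((SM_PN hN hn hk i).mul (SM_PN hN hn hk j)).1,
      (SM_PN hN hn hk i).1.natDegree_mul (SM_PN hN hn hk j).1, natDegree_X_pow,
      (G4_monic hN i hi).2, (G4_monic hN j hj).2]
  have h3 := h1.2
  rw [h2] at h3
  exact h3

/-- the coefficient of `ζ(i+4)` (without the binomial coefficient) -/
def rho (n : ℕ) (Q : ℚ[X]) (i : ℕ) : ℚ := ∑ k ∈ sN n, pa (sN n) (muN n) (PPn n * EE n Q) k i

theorem rho_le {n N : ℕ} (hN : 1 ≤ N) (hn : n = 24 * N + 1) {i j : ℕ} (hi : i < 600 * N)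
    (hj : j < 600 * N) (l : ℕ) :
    |rho n (PN N i * PN N j) l| ≤
      (18 * n) * (2 ^ (210 * n) * (20 * n) * MM n ^ (55 + (i + j)) * (326 * n) ^ 10) := by
  have hn1 : (1 : ℚ) ≤ n := by exact_mod_cast (by omega : 1 ≤ n)
  have hM := MM_ge_one (n := n) (by omega)
  have hM0 : 0 ≤ MM n := by linarith
  have key : ∀ k ∈ sN n, |pa (sN n) (muN n) (PPn n * EE n (PN N i * PN N j)) k l| ≤
      2 ^ (210 * n) * (20 * n) * MM n ^ (55 + (i + j)) * (326 * n) ^ 10 := by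
    intro k hk
    have hk' := hk
    rw [sN, ss, Finset.mem_Icc] at hk'
    have h1 := pa_mul_le 5 18 2 n ds10 (by omega) (by decide) (by decide) hk (EE n (PN N i * PN N j))
      ((55 + (i + j) : ℕ) : ℚ) (MM n ^ (55 + (i + j))) (by positivity) (by positivity)
      (AB_EE hN hn (by omega) hi hj) l
    refine h1.trans ?_
    have e1 : (5 * 18 + (List.map (fun d => 18 - 2 * d) ds10).sum) = 210 := by decide
    have e2 : ds10.length = 10 := by decide
    rw [e1, e2]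
    have h2 : ((∑ m ∈ ss 18 2 n, mu 18 n ds10 m : ℕ) : ℚ) ≤ 180 * n + 10 := by
      have h3 : ∑ m ∈ ss 18 2 n, mu 18 n ds10 m ≤ (18 * n) * 10 := by
        calc _ ≤ ∑ m ∈ ss 18 2 n, 10 := Finset.sum_le_sum fun k _ => mu_le_length 18 n ds10 k
          _ = (ss 18 2 n).card * 10 := by rw [Finset.sum_const, smul_eq_mul]
          _ ≤ (18 * n) * 10 := by
              apply Nat.mul_le_mul_right
              unfold ss
              rw [Nat.card_Icc]
              omega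
      have h4 : ((∑ m ∈ ss 18 2 n, mu 18 n ds10 m : ℕ) : ℚ) ≤ ((18 * n * 10 : ℕ) : ℚ) := by exact_mod_cast h3
      push_cast at h4 ⊢
      linarith
    have h3 : ((55 + (i + j) : ℕ) : ℚ) ≤ 55 + 50 * n := by
      have : 55 + (i + j) ≤ 55 + 50 * n := by omega
      have h4 : ((55 + (i + j) : ℕ) : ℚ) ≤ ((55 + 50 * n : ℕ) : ℚ) := by exact_mod_cast this
      push_cast at h4 ⊢
      exact h4
    have h4 : (1 + 2 * ((5 : ℕ) : ℚ) * (((2 : ℕ) : ℚ) * n) + ((∑ m ∈ ss 18 2 n, mu 18 n ds10 m : ℕ) : ℚ) + ((55 + (i + j) : ℕ) : ℚ)) ≤ 326 * n := by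
      push_cast at h2 h3 ⊢
      linarith
    have h5 : (((18 : ℕ) : ℚ) * n + 2) ≤ 20 * n := by
      push_cast
      linarith
    have h6 : 0 ≤ (1 + 2 * ((5 : ℕ) : ℚ) * (((2 : ℕ) : ℚ) * n) + ((∑ m ∈ ss 18 2 n, mu 18 n ds10 m : ℕ) : ℚ) + ((55 + (i + j) : ℕ) : ℚ)) := by positivity
    gcongr
  unfold rho
  calc _ ≤ ∑ k ∈ sN n, |pa (sN n) (muN n) (PPn n * EE n (PN N i * PN N j)) k l| := Finset.abs_sum_le_sum_abs _ _
    _ ≤ ∑ k ∈ sN n, 2 ^ (210 * n) * (20 * n) * MM n ^ (55 + (i + j)) * (326 * n) ^ 10 := Finset.sum_le_sum key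
    _ = ((sN n).card : ℚ) * (2 ^ (210 * n) * (20 * n) * MM n ^ (55 + (i + j)) * (326 * n) ^ 10) := by
        rw [Finset.sum_const, nsmul_eq_mul]
    _ ≤ _ := by
        apply mul_le_mul_of_nonneg_right _ (by positivity)
        have h4 : (sN n).card ≤ 18 * n := by
          unfold sN ss
          rw [Nat.card_Icc]
          omega
        have h5 : ((sN n).card : ℚ) ≤ ((18 * n : ℕ) : ℚ) := by exact_mod_cast h4
        push_cast at h5
        exact h5

end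

end Pool.Agent.TH957.ZM
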